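import Pool.Agent.H39.TO.Targets
import Pool.Agent.H7.CP.NCD
import Pool.Agent.H5.CP.NCE

/-!
# Two-orbit polyhedra in hyperbolic 3-space: row D2A, the data of a polyhedron of class `{2}`
-/

namespace Pool.Agent.H11.TOH

open Pool.Agent.H57.CP Pool.Agent.H39.TO

open Pool.Agent.H7.CP (u0 u1 u2 a0symm a1symm a2symm gr_sy S_mem T_mem sy_inv sy_one sy_mul act_mul act_one
  act_inv_act im2_mul im_mul im_one im2_one edge_pair face_orbit StF mem_StF)

theorem pf_D2A (_hSYG : T_SYG) (hFLA : T_FLA) (hFLB : T_FLB) (hFLC : T_FLC) (hFLD : T_FLD)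
    (_hEQV : T_EQV) (hCYF : T_CYF) : T_D2A := by
  intro K p hK hT o0 o1 i2 hFS
  obtain ⟨⟨v, e, f⟩, _, hΦ, -, -⟩ := hT.two
  obtain ⟨Φ0, a0, -⟩ := (hFLA K hK (v, e, f) hΦ).1
  obtain ⟨Φ01, a01, -⟩ := (hFLA K hK Φ0 a0.2.1).2.1
  obtain ⟨Φ2, a2, -⟩ := (hFLA K hK (v, e, f) hΦ).2.2
  have hS : Eqv K (v, e, f) Φ01 := by
    rcases hT.le_two (v, e, f) Φ0 Φ01 hΦ a0.2.1 a01.2.1 with h' | h' | h'
    · exact absurd h' (o0 _ _ a0)
    · exact absurd h' (o1 _ _ a01)
    · exact h'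
  obtain ⟨S, sS, eS⟩ := hS
  obtain ⟨R, sR, eR⟩ := i2 _ _ a2
  -- the base flag
  obtain ⟨v1, e1, f1⟩ := Φ0
  have hfl : v ∈ e ∧ e ∈ f ∧ f ∈ K.F := hΦ
  have hne : v ≠ v1 := a0.2.2.1
  have h0e : e = e1 := a0.2.2.2.1
  have h0f : f = f1 := a0.2.2.2.2
  subst h0e
  subst h0f
  have hv1e : v1 ∈ e := a0.2.1.1
  have heE : e ∈ K.E := (hK.fs f hfl.2.2).1 hfl.2.1
  have hpair : e = {v, v1} := edge_pair hK heE hfl.1 hv1e hne
  subst hpair
  -- the two symmetries
  have hSv : S v = v1 := by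
    have h : (act S (v, {v, v1}, f)).1 = Φ01.1 := by rw [eS]
    exact h.trans a01.2.2.1.symm
  have hSf : (Set.image S) '' f = f := by
    have h : (act S (v, {v, v1}, f)).2.2 = Φ01.2.2 := by rw [eS]
    exact h.trans a01.2.2.2.2.symm
  have hSe : S '' ({v, v1} : Set H3) ≠ {v, v1} := by
    have h : (act S (v, {v, v1}, f)).2.1 = Φ01.2.1 := by rw [eS]
    intro h'
    exact a01.2.2.2.1 (h'.symm.trans h)
  have hRv : R v = v := by
    have h : (act R (v, {v, v1}, f)).1 = Φ2.1 := by rw [eR]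
    exact h.trans a2.2.2.1.symm
  have hRe : R '' ({v, v1} : Set H3) = {v, v1} := by
    have h : (act R (v, {v, v1}, f)).2.1 = Φ2.2.1 := by rw [eR]
    exact h.trans a2.2.2.2.1.symm
  have hRf : f ≠ (Set.image R) '' f := by
    have h : (act R (v, {v, v1}, f)).2.2 = Φ2.2.2 := by rw [eR]
    intro h'
    exact a2.2.2.2.2 (h'.trans h)
  have hRv1 : R v1 = v1 := by
    have h : R v1 ∈ ({v, v1} : Set H3) := by
      rw [← hRe]
      exact Set.mem_image_of_mem _ (Or.inr rfl)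
    rcases h with h | h
    · exact absurd (R.injective (hRv.trans h.symm)) hne
    · exact h
  -- adjacency
  have b1 : A1 K (act S⁻¹ (v1, {v, v1}, f)) (v, {v, v1}, f) := by
    have h := (hFLB K S⁻¹ (sy_inv sS) _ _).2.2.1 a01
    rw [← eS, act_inv_act] at h
    exact h
  have b2 : A2 K (v1, {v, v1}, f) (act R (v1, {v, v1}, f)) := by
    refine ⟨a0.2.1, (hFLB K R sR (v1, {v, v1}, f) (v1, {v, v1}, f)).1 a0.2.1, ?_, ?_, ?_⟩
    · exact hRv1.symm
    · exact hRe.symm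
    · exact hRf
  -- all flags
  have all : ∀ Ψ, Fl K Ψ → ∃ g ∈ Gr S R, Ψ = act g (v, {v, v1}, f) ∨ Ψ = act g (v1, {v, v1}, f) := by
    intro Ψ hΨ
    have hpath := hFLC K hK (v, {v, v1}, f) Ψ a0.1 hΨ
    clear hΨ
    induction hpath with
    | refl => exact ⟨1, (Gr S R).one_mem, Or.inl (act_one _).symm⟩
    | tail hpq hstep ih =>
      rename_i Θ Ψ
      obtain ⟨g, hg, hor⟩ := ih
      have sg : Sy K g := gr_sy sS sR hg
      rcases hor with rfl | rfl
      · rcases hstep with hs | hs | hs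
        · have h := (hFLB K g sg _ _).2.1 a0
          exact ⟨g, hg, Or.inr (u0 hFLA hK hs h)⟩
        · have h := (hFLB K g sg _ _).2.2.1 (a1symm b1)
          refine ⟨g * S⁻¹, (Gr S R).mul_mem hg ((Gr S R).inv_mem (S_mem S R)), Or.inr ?_⟩
          rw [act_mul]
          exact u1 hFLA hK hs h
        · have h := (hFLB K g sg _ _).2.2.2 a2
          refine ⟨g * R, (Gr S R).mul_mem hg (T_mem S R), Or.inl ?_⟩
          rw [act_mul, eR]
          exact u2 hFLA hK hs h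
      · rcases hstep with hs | hs | hs
        · have h := (hFLB K g sg _ _).2.1 (a0symm a0)
          exact ⟨g, hg, Or.inl (u0 hFLA hK hs h)⟩
        · have h := (hFLB K g sg _ _).2.2.1 a01
          refine ⟨g * S, (Gr S R).mul_mem hg (S_mem S R), Or.inl ?_⟩
          rw [act_mul, eS]
          exact u1 hFLA hK hs h
        · have h := (hFLB K g sg _ _).2.2.2 b2
          refine ⟨g * R, (Gr S R).mul_mem hg (T_mem S R), Or.inr ?_⟩
          rw [act_mul]
          exact u2 hFLA hK hs h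
  -- the walk around the face
  have hcard : (vts f).encard = (p : ℕ∞) := by
    have h : (vts f).encard ∈ FS K := ⟨f, hfl.2.2, rfl⟩
    rw [hFS] at h
    exact h
  have sSk : ∀ k : ℕ, Sy K (S ^ k) := by
    intro k
    induction k with
    | zero => rw [pow_zero]; exact sy_one K
    | succ k ih => rw [pow_succ]; exact sy_mul ih sS
  obtain ⟨W, w2, w3⟩ : ∃ W : ℕ → Fg, (∀ m, W (2 * m) = act (S ^ m) (v, {v, v1}, f)) ∧
      ∀ m, W (2 * m + 1) = act (S ^ m) (v1, {v, v1}, f) := by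
    refine ⟨fun k => if k % 2 = 0 then act (S ^ (k / 2)) (v, {v, v1}, f) else
      act (S ^ (k / 2)) (v1, {v, v1}, f), ?_, ?_⟩
    · intro m
      have e1 : (2 * m) % 2 = 0 := by omega
      have e4 : (2 * m) / 2 = m := by omega
      simp only [if_pos e1, e4]
    · intro m
      have e1 : ¬ (2 * m + 1) % 2 = 0 := by omega
      have e4 : (2 * m + 1) / 2 = m := by omega
      simp only [if_neg e1, e4]
  have w0 : W 0 = (v, {v, v1}, f) := by
    have h := w2 0
    rw [pow_zero, act_one] at h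
    exact h
  have walk := hCYF K W (p : ℕ∞) hK (by
      intro k
      have e6 : 2 * k + 2 = 2 * (k + 1) := by ring
      rw [e6, w2, w2, w3]
      refine ⟨(hFLB K (S ^ k) (sSk k) _ _).2.1 a0, ?_⟩
      have h := (hFLB K (S ^ k) (sSk k) _ _).2.2.1 a01
      rw [← eS, ← act_mul, ← pow_succ] at h
      exact h) (by
      rw [w0]
      exact hcard)
  obtain ⟨c1, c2, -⟩ := walk
  have Sm : ∀ m : ℕ, (S ^ m) v = v ↔ p ∣ m := by
    intro m
    rcases Nat.eq_zero_or_pos m with rfl | hm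
    · simp
    · have h := c1 m hm
      rw [w2 m, w0] at h
      constructor
      · intro h1
        obtain ⟨n, hn, hd⟩ := h.1 h1
        have : p = n := by exact_mod_cast hn
        rw [this]
        exact hd
      · intro h1
        exact h.2 ⟨p, rfl, h1⟩
  have Sp : ∀ x ∈ K.V, (S ^ p) x = x := by
    have h1 : (S ^ p) v = v := (Sm p).2 (dvd_refl p)
    have h2 := c2 p (by rw [w2 p, w0]; exact h1)
    rw [w2 p, w0] at h2
    exact hFLD K hK (S ^ p) 1 (sSk p) (sy_one K) _ a0.1 (h2.trans (act_one _).symm)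
  refine ⟨v, v1, f, S, R, ⟨sS, sR, a0.1, hne, hSv, hRv, hRv1, hSf, Sm, Sp, ?_, ?_, ?_, ?_⟩⟩
  · -- vertices
    ext x
    constructor
    · intro hx
      obtain ⟨e', he', hxe⟩ := hK.ve x hx
      obtain ⟨f', hf', hef⟩ := Pool.Agent.H5.CP.exists_face hK he'
      obtain ⟨g, hg, h | h⟩ := all (x, e', f') ⟨hxe, hef, hf'⟩
      · exact ⟨g, hg, congrArg Prod.fst h⟩
      · refine ⟨g * S, (Gr S R).mul_mem hg (S_mem S R), ?_⟩
        have h1 : x = g v1 := congrArg Prod.fst h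
        rw [Equiv.Perm.mul_apply, hSv]
        exact h1
    · rintro ⟨g, hg, rfl⟩
      exact ((gr_sy sS sR hg).v v).2 (Pool.Agent.H5.CP.mem_V hK heE (Or.inl rfl))
  · -- edges
    ext e'
    constructor
    · intro he'
      obtain ⟨x, hxe⟩ := Pool.Agent.H5.CP.exists_vertex hK he'
      obtain ⟨f', hf', hef⟩ := Pool.Agent.H5.CP.exists_face hK he'
      obtain ⟨g, hg, h | h⟩ := all (x, e', f') ⟨hxe, hef, hf'⟩
      · exact ⟨g, hg, congrArg (fun t => t.2.1) h⟩
      · exact ⟨g, hg, congrArg (fun t => t.2.1) h⟩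
    · rintro ⟨g, hg, rfl⟩
      exact ((gr_sy sS sR hg).e _).2 heE
  · -- faces
    ext f'
    constructor
    · intro hf'
      obtain ⟨hsub, e', hef⟩ := hK.fs f' hf'
      obtain ⟨x, hxe⟩ := Pool.Agent.H5.CP.exists_vertex hK (hsub hef)
      obtain ⟨g, hg, h | h⟩ := all (x, e', f') ⟨hxe, hef, hf'⟩
      · exact ⟨g, hg, congrArg (fun t => t.2.2) h⟩
      · exact ⟨g, hg, congrArg (fun t => t.2.2) h⟩
    · rintro ⟨g, hg, rfl⟩
      exact ((gr_sy sS sR hg).f _).2 hfl.2.2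
  · exact face_orbit hK hfl.2.2 hfl.2.1 (mem_StF.2 hSf) hSv hSe

end Pool.Agent.H11.TOH
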