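import Pool.Agent.H39.TO.Targets

/-!
# Two-orbit polyhedra in hyperbolic 3-space: row LCT, the type of a realization
-/

namespace Pool.Agent.H11.TOH

open Pool.Agent.H57.CP Pool.Agent.H39.TO

theorem enc_face {P : Type} [PartialOrder P] [BoundedOrder P] {rk : P → ℤ} {β : P → H3}
    (hP : IsPolyhedron P rk) (hF : IsFaithful rk β) {f : P} (hf : rk f = 2) :
    (vts (im2 rk β f)).encard = {v | rk v = 0 ∧ v < f}.encard := by
  have hset : vts (im2 rk β f) = β '' {v | rk v = 0 ∧ v < f} := by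
    ext x
    constructor
    · rintro ⟨e, ⟨e', ⟨he1, he2⟩, rfl⟩, v, ⟨hv0, hv⟩, rfl⟩
      exact ⟨v, ⟨hv0, hv.trans he2⟩, rfl⟩
    · rintro ⟨v, ⟨hv0, hv⟩, rfl⟩
      have hd := hP.diamond v f hv (by rw [hf, hv0]; norm_num)
      have hne : (Set.Ioo v f).Nonempty := Set.nonempty_of_ncard_ne_zero (by rw [hd]; norm_num)
      obtain ⟨e, he1, he2⟩ := hne
      have h1 : rk v < rk e := hP.mono he1
      have h2 : rk e < rk f := hP.mono he2
      exact ⟨im1 rk β e, ⟨e, ⟨by omega, he2⟩, rfl⟩, v, ⟨hv0, he1⟩, rfl⟩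
  rw [hset, Set.InjOn.encard_image]
  intro v hv w hw h
  exact hF.inj0 v w hv.1 hw.1 h

theorem enc_vert {P : Type} [PartialOrder P] [BoundedOrder P] {rk : P → ℤ} {β : P → H3}
    (hF : IsFaithful rk β) {v : P} (hv0 : rk v = 0) :
    (eds (Kof rk β) (β v)).encard = {e | rk e = 1 ∧ v < e}.encard := by
  have hset : eds (Kof rk β) (β v) = im1 rk β '' {e | rk e = 1 ∧ v < e} := by
    ext e
    constructor
    · rintro ⟨⟨e', he', rfl⟩, w, ⟨hw0, hw⟩, hwv⟩
      have : w = v := hF.inj0 w v hw0 hv0 hwv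
      subst this
      exact ⟨e', ⟨he', hw⟩, rfl⟩
    · rintro ⟨e', ⟨he', hve⟩, rfl⟩
      exact ⟨⟨e', he', rfl⟩, v, ⟨hv0, hve⟩, rfl⟩
  rw [hset, Set.InjOn.encard_image]
  intro e he e' he' h
  exact hF.inj1 e e' he.1 he'.1 h

theorem pf_LCT : T_LCT := by
  intro P _ _ rk β hP hF
  constructor
  · ext n
    constructor
    · rintro ⟨f, ⟨f', hf', rfl⟩, hn⟩
      have hf2 : rk f' = 2 := hf'
      exact ⟨f', hf2, by rw [← enc_face hP hF hf2]; exact hn⟩
    · rintro ⟨f', hf', hn⟩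
      exact ⟨im2 rk β f', ⟨f', hf', rfl⟩, by rw [enc_face hP hF hf']; exact hn⟩
  · ext n
    constructor
    · rintro ⟨x, ⟨v, hv, rfl⟩, hn⟩
      have hv0 : rk v = 0 := hv
      exact ⟨v, hv0, by rw [← enc_vert hF hv0]; exact hn⟩
    · rintro ⟨v, hv, hn⟩
      exact ⟨β v, ⟨v, hv, rfl⟩, by rw [enc_vert hF hv]; exact hn⟩

end Pool.Agent.H11.TOH
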