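import Pool.Agent.H39.TO.Targets

/-!
# Two-orbit polyhedra in hyperbolic 3-space: row SGE, elementary properties of the geometric representation
-/

namespace Pool.Agent.H11.TOH

open Pool.Agent.H57.CP Pool.Agent.H39.TO

theorem lor_one : Lor (1 : Module.End ℝ V4) := ⟨fun _ _ => rfl, fun x => x.2.2⟩

theorem lor_mul {A B : Module.End ℝ V4} (hA : Lor A) (hB : Lor B) : Lor (A * B) := by
  refine ⟨fun x y => (hA.1 (B x) (B y)).trans (hB.1 x y), fun x => ?_⟩
  have h1 : mk (B x.1) (B x.1) = 1 := (hB.1 x.1 x.1).trans x.2.1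
  exact hA.2 ⟨B x.1, h1, hB.2 x⟩

theorem refl_self {a : V4} (ha : mk a a = -1) : refl a a = -a := by
  funext i
  have h : (refl a a) i = a i + 2 * mk a a * a i := rfl
  rw [h, ha, Pi.neg_apply]
  ring

theorem pf_SGE (hTTS : T_TTS) (hLOR : T_LOR) : T_SGE := by
  intro M al σ hN hS
  have hlor : ∀ w, Lor (σ w) := by
    intro w
    refine M.toCoxeterSystem.simple_induction (p := fun w => Lor (σ w)) w ?_ ?_ ?_
    · intro i
      have h : σ (M.toCoxeterSystem.simple i) = Pool.Agent.H57.CP.refl (al i) := hS i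
      show Lor (σ (M.toCoxeterSystem.simple i))
      rw [h]
      exact (hLOR.2.2 _ (hN.unit i)).1
    · show Lor (σ 1)
      rw [map_one]
      exact lor_one
    · intro w w' hw hw'
      show Lor (σ (w * w'))
      rw [map_mul]
      exact lor_mul hw hw'
  have hdes : ∀ w i, M.toCoxeterSystem.IsRightDescent w i →
      ∃ c : Fin 3 → ℝ, (∀ j, c j ≤ 0) ∧ σ w (al i) = ∑ j, c j • al j := by
    intro w i hd
    have hd' := M.toCoxeterSystem.isRightDescent_iff_not_isRightDescent_mul.1 hd
    obtain ⟨c, hc, he⟩ := hTTS M al σ hN hS _ i hd'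
    refine ⟨fun j => - c j, fun j => neg_nonpos.2 (hc j), ?_⟩
    have h1 : σ (w * M.toCoxeterSystem.simple i) (al i) = - σ w (al i) := by
      have h2 : σ (M.toCoxeterSystem.simple i) = Pool.Agent.H57.CP.refl (al i) := hS i
      rw [map_mul, h2]
      have h3 : (σ w * Pool.Agent.H57.CP.refl (al i)) (al i) = σ w (Pool.Agent.H57.CP.refl (al i) (al i)) := rfl
      rw [h3, refl_self (hN.unit i), map_neg]
    rw [h1] at he
    have h4 : σ w (al i) = - ∑ j, c j • al j := by
      rw [← he, neg_neg]
    rw [h4, ← Finset.sum_neg_distrib]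
    exact Finset.sum_congr rfl fun j _ => (neg_smul _ _).symm
  refine ⟨hlor, ?_, hdes⟩
  intro w hw
  by_contra hne
  obtain ⟨i, hi⟩ := M.toCoxeterSystem.exists_rightDescent_of_ne_one hne
  obtain ⟨c, hc, he⟩ := hdes w i hi
  rw [hw, Module.End.one_apply] at he
  have hli := hN.li
  rw [Fintype.linearIndependent_iff] at hli
  have h0 : ∑ j, (c j - if j = i then 1 else 0) • al j = 0 := by
    have h1 : ∀ j, (c j - if j = i then (1 : ℝ) else 0) • al j =
        c j • al j - (if j = i then (1 : ℝ) else 0) • al j := fun j => sub_smul _ _ _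
    rw [Finset.sum_congr rfl fun j _ => h1 j, Finset.sum_sub_distrib, ← he]
    have h2 : ∑ j, (if j = i then (1 : ℝ) else 0) • al j = al i := by
      rw [Finset.sum_eq_single i]
      · rw [if_pos rfl, one_smul]
      · intro j _ hj
        rw [if_neg hj, zero_smul]
      · intro h
        exact absurd (Finset.mem_univ i) h
    rw [h2, sub_self]
  have h3 := hli _ h0 i
  rw [if_pos rfl] at h3
  have := hc i
  linarith

end Pool.Agent.H11.TOH
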