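import Pool.Agent.H39.TO.Targets

/-!
# Two-orbit polyhedra in hyperbolic 3-space: row SML, small sizes do not occur
-/

namespace Pool.Agent.H11.TOH

open Pool.Agent.H57.CP Pool.Agent.H39.TO

theorem exists_second {K : Geo} (hK : IsGeo K) {f : Set (Set H3)} (hf : f ∈ K.F) {e : Set H3}
    (he : e ∈ f) {x : H3} (hx : x ∈ e) : ∃ e', e' ∈ f ∧ x ∈ e' ∧ e' ≠ e := by
  have h := hK.vf f hf e he x hx
  obtain ⟨a, b, hab, hs⟩ := Set.ncard_eq_two.1 h
  have ha : a ∈ {e' | e' ∈ f ∧ x ∈ e'} := by rw [hs]; exact Set.mem_insert _ _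
  have hb : b ∈ {e' | e' ∈ f ∧ x ∈ e'} := by rw [hs]; exact Set.mem_insert_of_mem _ rfl
  by_cases hae : a = e
  · exact ⟨b, hb.1, hb.2, fun h => hab (hae.trans h.symm)⟩
  · exact ⟨a, ha.1, ha.2, hae⟩

theorem other_end {K : Geo} (hK : IsGeo K) {e : Set H3} (he : e ∈ K.E) {x : H3} (hx : x ∈ e) :
    ∃ z, z ≠ x ∧ e = {x, z} := by
  obtain ⟨a, _, b, _, hab, rfl⟩ := hK.ed e he
  rcases hx with hx | hx
  · rw [hx]
    exact ⟨b, hab.symm, rfl⟩
  · have hx' : x = b := hx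
    rw [hx']
    exact ⟨a, hab, Set.pair_comm _ _⟩

theorem faces_eq {K : Geo} (hK : IsGeo K) (h2 : ∀ x ∈ K.V, (eds K x).encard = 2) {e0 : Set H3}
    {f g : Set (Set H3)} (hf : f ∈ K.F) (hg : g ∈ K.F) (hef : e0 ∈ f) (heg : e0 ∈ g) : f ⊆ g := by
  intro e' he'
  have h1 := hK.cf f hf e0 hef e' he'
  clear he'
  have h3 : e' ∈ f ∧ e' ∈ g := by
    induction h1 with
    | refl => exact ⟨hef, heg⟩
    | tail _ hab ih =>
      rename_i a b _
      obtain ⟨haf, hag⟩ := ih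
      obtain ⟨hbf, x, hxa, hxb⟩ := hab
      refine ⟨hbf, ?_⟩
      have haE : a ∈ K.E := (hK.fs f hf).1 haf
      have hbE : b ∈ K.E := (hK.fs f hf).1 hbf
      have hxV : x ∈ K.V := by
        obtain ⟨y, hy, z, hz, _, rfl⟩ := hK.ed a haE
        rcases hxa with h | h
        · rw [h]; exact hy
        · have h' : x = z := h
          rw [h']; exact hz
      have hv := hK.vf g hg a hag x hxa
      have hsub : {e' | e' ∈ g ∧ x ∈ e'} ⊆ eds K x := fun e h => ⟨(hK.fs g hg).1 h.1, h.2⟩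
      have hfin : (eds K x).Finite := Set.finite_of_encard_eq_coe (k := 2) (h2 x hxV)
      have hle : (eds K x).encard ≤ {e' | e' ∈ g ∧ x ∈ e'}.encard := by
        rw [h2 x hxV, ← (hfin.subset hsub).cast_ncard_eq, hv]
        exact le_rfl
      have heq := (hfin.subset hsub).eq_of_subset_of_encard_le hsub hle
      have hb : b ∈ eds K x := ⟨hbE, hxb⟩
      rw [← heq] at hb
      exact hb.1
  exact h3.2

theorem pf_SML : T_SML := by
  intro K hK
  refine ⟨?_, ?_, ?_⟩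
  · rintro n ⟨f, hf, rfl⟩
    obtain ⟨hfE, e, he⟩ := hK.fs f hf
    obtain ⟨x, hx, y, hy, hxy, rfl⟩ := hK.ed e (hfE he)
    have hxe : x ∈ ({x, y} : Set H3) := Set.mem_insert _ _
    obtain ⟨e', he', hxe', hne⟩ := exists_second hK hf he hxe
    obtain ⟨z, hzx, hz⟩ := other_end hK (hfE he') hxe'
    have hzy : z ≠ y := fun h => hne (by rw [hz, h])
    have hsub : ({x, y, z} : Set H3) ⊆ vts f := by
      rintro w (h | h | h)
      · rw [h]; exact ⟨_, he, hxe⟩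
      · rw [h]; exact ⟨_, he, Set.mem_insert_of_mem _ rfl⟩
      · have h' : w = z := h
        rw [h']
        exact ⟨_, he', by rw [hz]; exact Set.mem_insert_of_mem _ rfl⟩
    have h3 : ({x, y, z} : Set H3).encard = 3 :=
      Set.encard_eq_three.2 ⟨x, y, z, hxy, hzx.symm, hzy.symm, rfl⟩
    rw [← h3]
    exact Set.encard_le_encard hsub
  · rintro n ⟨x, hx, rfl⟩
    obtain ⟨e, he, hxe⟩ := hK.ve x hx
    have h1 := hK.ef e he
    obtain ⟨f, hf⟩ := Set.nonempty_of_ncard_ne_zero (by rw [h1]; norm_num :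
      {f | f ∈ K.F ∧ e ∈ f}.ncard ≠ 0)
    obtain ⟨e', he', hxe', hne⟩ := exists_second hK hf.1 hf.2 hxe
    have hsub : ({e, e'} : Set (Set H3)) ⊆ eds K x := by
      rintro w (h | h)
      · rw [h]; exact ⟨he, hxe⟩
      · have h' : w = e' := h
        rw [h']
        exact ⟨(hK.fs f hf.1).1 he', hxe'⟩
    rw [← Set.encard_pair hne.symm]
    exact Set.encard_le_encard hsub
  · intro hDG
    have h2 : ∀ x ∈ K.V, (eds K x).encard = 2 := by
      intro x hx
      have h1 : (eds K x).encard ∈ DG K := ⟨x, hx, rfl⟩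
      rw [hDG] at h1
      exact h1
    obtain ⟨x0, hx0⟩ := hK.ne
    obtain ⟨e0, he0, _⟩ := hK.ve x0 hx0
    obtain ⟨f, g, hfg, hs⟩ := Set.ncard_eq_two.1 (hK.ef e0 he0)
    have hf : f ∈ {f | f ∈ K.F ∧ e0 ∈ f} := by rw [hs]; exact Set.mem_insert _ _
    have hg : g ∈ {f | f ∈ K.F ∧ e0 ∈ f} := by rw [hs]; exact Set.mem_insert_of_mem _ rfl
    exact hfg (Set.Subset.antisymm (faces_eq hK h2 hf.1 hg.1 hf.2 hg.2)
      (faces_eq hK h2 hg.1 hf.1 hg.2 hf.2))

end Pool.Agent.H11.TOH
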