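import Pool.Agent.H39.TO.Targets

/-!
# Two-orbit polyhedra in hyperbolic 3-space: row SPA, the centres in the spherical case
-/

namespace Pool.Agent.H11.TOH

open Pool.Agent.H57.CP Pool.Agent.H39.TO

theorem refl_app (a x : V4) (i : Fin 4) : (refl a x) i = x i + 2 * mk a x * a i := rfl

theorem gam_fix {n0 n1 n2 : V4} (h0 : n0 3 = 0) (h1 : n1 3 = 0) (h2 : n2 3 = 0) {g : Module.End ℝ V4}
    (hg : g ∈ Gam n0 n1 n2) : ∀ x : V4, (g x) 3 = x 3 := by
  have key : ∀ n : V4, n 3 = 0 → ∀ x : V4, (refl n x) 3 = x 3 := by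
    intro n hn x
    rw [refl_app, hn]
    ring
  unfold Gam at hg
  induction hg using Submonoid.closure_induction with
  | mem y hy =>
    rcases hy with rfl | rfl | hy
    · exact key _ h0
    · exact key _ h1
    · rw [Set.mem_singleton_iff] at hy
      rw [hy]
      exact key _ h2
  | one => intro x; rfl
  | mul y z _ _ hy hz => intro x; exact (hy (z x)).trans (hz x)

theorem gam_mk (hLOR : T_LOR) {n0 n1 n2 : V4} (h0 : mk n0 n0 = -1) (h1 : mk n1 n1 = -1) (h2 : mk n2 n2 = -1)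
    {g : Module.End ℝ V4} (hg : g ∈ Gam n0 n1 n2) : ∀ x y : V4, mk (g x) (g y) = mk x y := by
  unfold Gam at hg
  induction hg using Submonoid.closure_induction with
  | mem y hy =>
    rcases hy with rfl | rfl | hy
    · exact (hLOR.2.2 _ h0).1.1
    · exact (hLOR.2.2 _ h1).1.1
    · rw [Set.mem_singleton_iff] at hy
      rw [hy]
      exact (hLOR.2.2 _ h2).1.1
  | one => intro x y; rfl
  | mul y z _ _ hy hz => intro x w; exact (hy (z x) (z w)).trans (hz x w)

theorem pf_SPA (hLOR : T_LOR) : T_SPA := by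
  intro p C hp hC0 hC1 hT
  have n3 : nM 3 = 0 := rfl
  have t3 : (tM p) 3 = 0 := rfl
  have s3 : (sM p C) 3 = 0 := rfl
  have fin : {g | g ∈ Gam nM (tM p) (sM p C)}.Finite := by
    refine (hT.pro o 1).subset ?_
    intro g hg
    refine ⟨hg, ?_⟩
    have h1 : (g o.1) 3 = 1 := gam_fix n3 t3 s3 hg o.1
    have h2 : mk o.1 (g o.1) = (g o.1) 3 := by
      simp [mk, o]
    rw [h2, h1]
  have ee : mk e2 e2 = -1 := by
    simp [mk, e2]
  have aa : mk (aS C) (aS C) = -1 := by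
    have h : Real.sqrt (1 - C ^ 2) * Real.sqrt (1 - C ^ 2) = 1 - C ^ 2 :=
      Real.mul_self_sqrt (by nlinarith)
    simp only [mk, aS, Matrix.cons_val]
    linarith
  refine ⟨?_, ?_, ⟨1, Submonoid.one_mem _, Or.inl rfl⟩, ⟨1, Submonoid.one_mem _, Or.inr rfl⟩, ?_⟩
  · have h1 : (PS p C) ⊆ (fun g : Module.End ℝ V4 => g e2) '' {g | g ∈ Gam nM (tM p) (sM p C)} ∪
        (fun g : Module.End ℝ V4 => g (aS C)) '' {g | g ∈ Gam nM (tM p) (sM p C)} := by
      rintro x ⟨g, hg, h | h⟩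
      · exact Or.inl ⟨g, hg, h.symm⟩
      · exact Or.inr ⟨g, hg, h.symm⟩
    exact ((fin.image _).union (fin.image _)).subset h1
  · rintro x ⟨g, hg, rfl | rfl⟩
    · exact ⟨(gam_mk hLOR hT.u0 hT.ut hT.ut' hg _ _).trans ee, gam_fix n3 t3 s3 hg _⟩
    · exact ⟨(gam_mk hLOR hT.u0 hT.ut hT.ut' hg _ _).trans aa, gam_fix n3 t3 s3 hg _⟩
  · simp [mk, e2, aS]

end Pool.Agent.H11.TOH
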